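import Pool.Agent.Lib.MP_acafa7_al.F.IfaceG
import Pool.Agent.Lib.MP_acafa7_al.MS.H16.FlipM
import Pool.Agent.Lib.MP_acafa7_al.MS.H21.FlipL
import Pool.Agent.Lib.MP_acafa7_al.MS.H57.QuadA

/-! Module QFLIP: flips of metric discs. -/

namespace MSG.F94

open Classical

lemma tr_rot {x y z : ℝ} (h : Tr x y z) : Tr y z x :=
  ⟨h.py, h.pz, h.px, by linarith [h.hy], by linarith [h.hz], by linarith [h.hx]⟩

lemma tarea_perm (hA : QAreaStatement) {x y z : ℝ} (h : Tr x y z) :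
    tarea x z y = tarea x y z ∧ tarea y x z = tarea x y z ∧ tarea y z x = tarea x y z ∧
      tarea z x y = tarea x y z ∧ tarea z y x = tarea x y z := by
  obtain ⟨r1, s1, -⟩ := hA.1 x y z h
  obtain ⟨r2, s2, -⟩ := hA.1 y z x (tr_rot h)
  obtain ⟨-, s3, -⟩ := hA.1 z x y (tr_rot (tr_rot h))
  refine ⟨?_, s1.symm, r1.symm, ?_, ?_⟩
  · rw [← s3, ← r2, ← r1]
  · rw [← r2, ← r1]
  · rw [← s2, ← r1]

/-- a map as a labelled map -/
def toL {D : Type} (M : DMap D) : LMap Unit D (1 : Equiv.Perm Unit) where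
  toDMap := M
  f _ := ()
  γ _ := 0
  h _ := 0
  γι := by simp
  tgt := by simp

theorem qflip_st (hA : QAreaStatement) : QFlipStatement := by
  intro D _ M R ℓ hM s hs hιs hne1 hne2 hv hw
  set B : Set D := {d | d ∈ R} with hB
  have hs' : s ∉ B := hs
  have hιs' : M.ι s ∉ B := hιs
  have hoff := hM.off
  have hTs : M.Tri3 s := hoff.2 s hs
  have hTt : M.Tri3 (M.ι s) := hoff.2 _ hιs
  obtain ⟨N', hF, hpl⟩ := H21.flipl Unit D (1 : Equiv.Perm Unit) (toL M) s ⟨hTs, by simp [toL]⟩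
    ⟨hTt, by simp [toL]⟩ hne1 hne2
  have hfl : IsFlip M N'.toDMap s := hF.flip
  obtain ⟨M', hM'⟩ : ∃ M', M' = N'.toDMap := ⟨_, rfl⟩
  rw [← hM'] at hfl
  have hpl' : M'.Planar := by rw [hM']; exact hpl hM.planar
  -- names
  obtain ⟨t, ht⟩ : ∃ t, t = M.ι s := ⟨_, rfl⟩
  obtain ⟨d1, hd1⟩ : ∃ d1, d1 = M.φ s := ⟨_, rfl⟩
  obtain ⟨d2, hd2⟩ : ∃ d2, d2 = M.φ d1 := ⟨_, rfl⟩
  obtain ⟨t1, ht1⟩ : ∃ t1, t1 = M.φ t := ⟨_, rfl⟩
  obtain ⟨t2, ht2⟩ : ∃ t2, t2 = M.φ t1 := ⟨_, rfl⟩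
  have hd3 : M.φ d2 = s := by rw [hd2, hd1]; exact hTs.1
  have ht3 : M.φ t2 = t := by rw [ht2, ht1, ht]; exact hTt.1
  have hιt : M.ι t = s := by rw [ht]; exact M.ιι s
  -- distinctness
  have n1 := H16.tri3_ne hTs
  have n2 := H16.tri3_ne hTt
  have n3 := H16.six_ne hTs hTt (M.ne s) hne1 hne2
  rw [← ht] at hιs hιs' hne1 hne2 hv hw hTt n2 n3
  rw [← hd1] at hne1 hne2 hw n1 n3
  rw [← hd2] at hne2 n1 n3
  rw [← ht1] at hv n2 n3
  rw [← ht2] at n2 n3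
  have hts : t ≠ s := by rw [ht]; exact M.ne s
  obtain ⟨s_d1, s_d2, d1_d2⟩ := n1
  obtain ⟨t_t1, t_t2, t1_t2⟩ := n2
  obtain ⟨t1_s, t1_d1, t1_d2, t2_s, t2_d1, t2_d2⟩ := n3
  -- the new map
  have p0 : M'.φ s = d2 := by rw [hd2, hd1]; exact hfl.f0
  have p1 : M'.φ d2 = t1 := by rw [hd2, hd1, ht1, ht]; exact hfl.f1
  have p2 : M'.φ t1 = s := by rw [ht1, ht]; exact hfl.f2
  have p3 : M'.φ t = t2 := by rw [ht2, ht1, ht]; exact hfl.f3
  have p4 : M'.φ t2 = d1 := by rw [ht2, ht1, ht, hd1]; exact hfl.f4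
  have p5 : M'.φ d1 = t := by rw [hd1, ht]; exact hfl.f5
  have prest : ∀ d, d ≠ s → d ≠ d1 → d ≠ d2 → d ≠ t → d ≠ t1 → d ≠ t2 → M'.φ d = M.φ d := by
    intro d h0 h1 h2 h3 h4 h5
    rw [hd1] at h1
    rw [hd2, hd1] at h2
    rw [ht] at h3
    rw [ht1, ht] at h4
    rw [ht2, ht1, ht] at h5
    exact hfl.rest d h0 h1 h2 h3 h4 h5
  have outR : ∀ d, d ≠ s → d ≠ d1 → d ≠ d2 → d ≠ t → d ≠ t1 → d ≠ t2 →
      M.φ d ≠ s ∧ M.φ d ≠ d1 ∧ M.φ d ≠ d2 ∧ M.φ d ≠ t ∧ M.φ d ≠ t1 ∧ M.φ d ≠ t2 := by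
    intro d h0 h1 h2 h3 h4 h5
    have inj := M.φ.injective
    refine ⟨?_, ?_, ?_, ?_, ?_, ?_⟩
    · rw [← hd3]; exact fun h => h2 (inj h)
    · rw [hd1]; exact fun h => h0 (inj h)
    · rw [hd2]; exact fun h => h1 (inj h)
    · rw [← ht3]; exact fun h => h5 (inj h)
    · rw [ht1]; exact fun h => h3 (inj h)
    · rw [ht2]; exact fun h => h4 (inj h)
  have hι' : ∀ d, M'.ι d = M.ι d := hfl.ι
  -- boundary
  have cl : ∀ d, d ∉ B → M.φ d ∉ B := by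
    intro d hd h
    apply hd
    have h1 := hoff.1 _ (hoff.1 _ h)
    rw [(hoff.2 d hd).1] at h1
    exact h1
  have bd1 : d1 ∉ B := by rw [hd1]; exact cl s hs'
  have bd2 : d2 ∉ B := by rw [hd2]; exact cl _ bd1
  have bt1 : t1 ∉ B := by rw [ht1]; exact cl _ hιs'
  have bt2 : t2 ∉ B := by rw [ht2]; exact cl _ bt1
  have neB : ∀ d ∈ B, d ≠ s ∧ d ≠ d1 ∧ d ≠ d2 ∧ d ≠ t ∧ d ≠ t1 ∧ d ≠ t2 := by
    intro d hd
    refine ⟨?_, ?_, ?_, ?_, ?_, ?_⟩ <;> rintro rfl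
    · exact hs' hd
    · exact bd1 hd
    · exact bd2 hd
    · exact hιs' hd
    · exact bt1 hd
    · exact bt2 hd
  -- geometry
  obtain ⟨lpos, lsym, ltri⟩ := hM.lenok
  have lt : ℓ t = ℓ s := by rw [ht]; exact lsym s
  have q1 : ℓ d1 < ℓ s + ℓ d2 := by have := ltri s hs'; rw [← hd1, ← hd2] at this; exact this
  have q2 : ℓ d2 < ℓ d1 + ℓ s := by have := ltri d1 bd1; rw [← hd2, hd3] at this; exact this
  have q3 : ℓ s < ℓ d2 + ℓ d1 := by have := ltri d2 bd2; rw [hd3, ← hd1] at this; exact this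
  have r1 : ℓ t1 < ℓ s + ℓ t2 := by
    have := ltri t hιs'; rw [← ht1, ← ht2, lt] at this; exact this
  have r2 : ℓ t2 < ℓ t1 + ℓ s := by
    have := ltri t1 bt1; rw [← ht2, ht3, lt] at this; exact this
  have r3 : ℓ s < ℓ t2 + ℓ t1 := by
    have := ltri t2 bt2; rw [ht3, ← ht1, lt] at this; exact this
  have ths : M.th ℓ s = ang (ℓ s) (ℓ d2) (ℓ d1) := by unfold DMap.th; rw [← hd1, ← hd2]
  have thd1 : M.th ℓ d1 = ang (ℓ d1) (ℓ s) (ℓ d2) := by unfold DMap.th; rw [← hd2, hd3]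
  have thd2 : M.th ℓ d2 = ang (ℓ d2) (ℓ d1) (ℓ s) := by unfold DMap.th; rw [hd3, ← hd1]
  have tht : M.th ℓ t = ang (ℓ s) (ℓ t2) (ℓ t1) := by unfold DMap.th; rw [← ht1, ← ht2, lt]
  have tht1 : M.th ℓ t1 = ang (ℓ t1) (ℓ s) (ℓ t2) := by unfold DMap.th; rw [← ht2, ht3, lt]
  have tht2 : M.th ℓ t2 = ang (ℓ t2) (ℓ t1) (ℓ s) := by unfold DMap.th; rw [ht3, ← ht1, lt]
  have hQH : QH (ℓ s) (ℓ d1) (ℓ d2) (ℓ t1) (ℓ t2) := by
    refine ⟨⟨lpos _, lpos _, lpos _, by linarith, by linarith, by linarith⟩,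
      ⟨lpos _, lpos _, lpos _, by linarith, by linarith, by linarith⟩, ?_, ?_⟩
    · rw [← ths, ← tht1]; exact hv
    · rw [← thd1, ← tht, add_comm]; exact hw
  obtain ⟨L, hL⟩ := H57.quada _ _ _ _ _ hQH
  have harea := hA.2 _ _ _ _ _ _ hQH hL
  obtain ⟨tA, tB, hav, haw, hax, hay, -⟩ := hL
  -- new lengths
  obtain ⟨ℓ', hℓ'⟩ : ∃ ℓ' : D → ℝ, ℓ' = fun d => if d = s ∨ d = t then L else ℓ d := ⟨_, rfl⟩
  have ls : ℓ' s = L := by rw [hℓ']; simp
  have lt' : ℓ' t = L := by rw [hℓ']; simp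
  have lr : ∀ d, d ≠ s → d ≠ t → ℓ' d = ℓ d := by
    intro d h1 h2
    rw [hℓ']
    simp [h1, h2]
  have ld1 : ℓ' d1 = ℓ d1 := lr _ s_d1.symm hne1.symm
  have ld2 : ℓ' d2 = ℓ d2 := lr _ s_d2.symm hne2.symm
  have lt1 : ℓ' t1 = ℓ t1 := lr _ t1_s t_t1.symm
  have lt2 : ℓ' t2 = ℓ t2 := lr _ t2_s t_t2.symm
  -- angles of the new map
  have ths' : M'.th ℓ' s = ang L (ℓ t1) (ℓ d2) := by unfold DMap.th; rw [p0, p1, ls, lt1, ld2]
  have thd2' : M'.th ℓ' d2 = ang (ℓ d2) L (ℓ t1) := by unfold DMap.th; rw [p1, p2, ls, lt1, ld2]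
  have tht1' : M'.th ℓ' t1 = ang (ℓ t1) (ℓ d2) L := by unfold DMap.th; rw [p2, p0, ls, lt1, ld2]
  have tht' : M'.th ℓ' t = ang L (ℓ d1) (ℓ t2) := by unfold DMap.th; rw [p3, p4, lt', lt2, ld1]
  have tht2' : M'.th ℓ' t2 = ang (ℓ t2) L (ℓ d1) := by unfold DMap.th; rw [p4, p5, lt', lt2, ld1]
  have thd1' : M'.th ℓ' d1 = ang (ℓ d1) (ℓ t2) L := by unfold DMap.th; rw [p5, p3, lt', lt2, ld1]
  have thr : ∀ d, d ≠ s → d ≠ d1 → d ≠ d2 → d ≠ t → d ≠ t1 → d ≠ t2 →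
      M'.th ℓ' d = M.th ℓ d := by
    intro d h0 h1 h2 h3 h4 h5
    obtain ⟨i0, i1, i2, i3, i4, i5⟩ := outR d h0 h1 h2 h3 h4 h5
    obtain ⟨j0, -, -, j3, -, -⟩ := outR _ i0 i1 i2 i3 i4 i5
    unfold DMap.th
    rw [prest d h0 h1 h2 h3 h4 h5, prest _ i0 i1 i2 i3 i4 i5, lr d h0 h3, lr _ i0 i3, lr _ j0 j3]
  have A1 : M'.th ℓ' t1 = M.th ℓ s + M.th ℓ t1 := by rw [tht1', ths, tht1]; exact hav
  have A2 : M'.th ℓ' d1 = M.th ℓ d1 + M.th ℓ t := by rw [thd1', thd1, tht]; exact haw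
  have A3 : M'.th ℓ' d2 + M'.th ℓ' t = M.th ℓ d2 := by rw [thd2', tht', thd2]; exact hax
  have A4 : M'.th ℓ' t2 + M'.th ℓ' s = M.th ℓ t2 := by
    rw [tht2', ths', tht2, add_comm]; exact hay
  have hnmem : ∀ (f : D → ℝ), ∑ x ∈ ({s, d1, d2, t, t1, t2} : Finset D), f x =
      f s + (f d1 + (f d2 + (f t + (f t1 + f t2)))) := by
    intro f
    rw [Finset.sum_insert, Finset.sum_insert, Finset.sum_insert, Finset.sum_insert,
      Finset.sum_insert, Finset.sum_singleton]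
    · simpa using t1_t2
    · simp only [Finset.mem_insert, Finset.mem_singleton, not_or]
      exact ⟨t_t1, t_t2⟩
    · simp only [Finset.mem_insert, Finset.mem_singleton, not_or]
      exact ⟨hne2.symm, t1_d2.symm, t2_d2.symm⟩
    · simp only [Finset.mem_insert, Finset.mem_singleton, not_or]
      exact ⟨d1_d2, hne1.symm, t1_d1.symm, t2_d1.symm⟩
    · simp only [Finset.mem_insert, Finset.mem_singleton, not_or]
      exact ⟨s_d1, s_d2, hts.symm, t1_s.symm, t2_s.symm⟩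
  -- curvature
  have svn : ∀ x y, x ≠ s → x ≠ t → y ≠ s → y ≠ t → (M'.SameV x y ↔ M.SameV x y) := by
    intro x y h1 h2 h3 h4
    rw [ht] at h2 h4
    exact hfl.sv x y h1 h2 h3 h4
  have sv0 : M'.SameV s t2 := by rw [ht2, ht1, ht]; exact hfl.sv0
  have sv1 : M'.SameV t d2 := by rw [hd2, hd1, ht]; exact hfl.sv1
  have svs : M.SameV t1 s := by
    have := M.sameV_step t
    rw [← ht1, hιt] at this
    exact this
  have svt : M.SameV d1 t := by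
    have := M.sameV_step s
    rw [← hd1, ← ht] at this
    exact this
  have key : ∀ d, d ≠ s → d ≠ t → M'.curv ℓ' B d = M.curv ℓ B d := by
    intro d hds hdt
    unfold DMap.curv
    congr 1
    rw [← Finset.sum_add_sum_compl ({s, d1, d2, t, t1, t2} : Finset D),
      ← Finset.sum_add_sum_compl ({s, d1, d2, t, t1, t2} : Finset D)
        (fun x => if M.SameV d x then M.wt ℓ B x else 0)]
    congr 1
    · rw [hnmem, hnmem]
      have w' : ∀ x, x ∉ B → M'.wt ℓ' B x = M'.th ℓ' x := fun x hx => by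
        unfold DMap.wt; rw [if_neg hx]
      have w : ∀ x, x ∉ B → M.wt ℓ B x = M.th ℓ x := fun x hx => by
        unfold DMap.wt; rw [if_neg hx]
      rw [w' s hs', w' d1 bd1, w' d2 bd2, w' t hιs', w' t1 bt1, w' t2 bt2, w s hs', w d1 bd1,
        w d2 bd2, w t hιs', w t1 bt1, w t2 bt2]
      have c1 : M'.SameV d d1 ↔ M.SameV d d1 := svn d d1 hds hdt s_d1.symm hne1.symm
      have c2 : M'.SameV d d2 ↔ M.SameV d d2 := svn d d2 hds hdt s_d2.symm hne2.symm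
      have c3 : M'.SameV d t1 ↔ M.SameV d t1 := svn d t1 hds hdt t1_s t_t1.symm
      have c4 : M'.SameV d t2 ↔ M.SameV d t2 := svn d t2 hds hdt t2_s t_t2.symm
      have c5 : M'.SameV d s ↔ M.SameV d t2 := by
        rw [← c4]
        exact ⟨fun h => M'.sameV_trans h sv0, fun h => M'.sameV_trans h (M'.sameV_symm sv0)⟩
      have c6 : M'.SameV d t ↔ M.SameV d d2 := by
        rw [← c2]
        exact ⟨fun h => M'.sameV_trans h sv1, fun h => M'.sameV_trans h (M'.sameV_symm sv1)⟩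
      have c7 : M.SameV d s ↔ M.SameV d t1 :=
        ⟨fun h => M.sameV_trans h (M.sameV_symm svs), fun h => M.sameV_trans h svs⟩
      have c8 : M.SameV d t ↔ M.SameV d d1 :=
        ⟨fun h => M.sameV_trans h (M.sameV_symm svt), fun h => M.sameV_trans h svt⟩
      simp only [c1, c2, c3, c4, c5, c6, c7, c8]
      by_cases e1 : M.SameV d d1 <;> by_cases e2 : M.SameV d d2 <;>
        by_cases e3 : M.SameV d t1 <;> by_cases e4 : M.SameV d t2 <;>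
        simp only [e1, e2, e3, e4, if_true, if_false] <;> linarith
    · apply Finset.sum_congr rfl
      intro x hx
      simp only [Finset.mem_compl, Finset.mem_insert, Finset.mem_singleton, not_or] at hx
      obtain ⟨h0, h1, h2, h3, h4, h5⟩ := hx
      have c1 : M'.SameV d x ↔ M.SameV d x := svn d x hds hdt h0 h3
      have c2 : M'.wt ℓ' B x = M.wt ℓ B x := by
        unfold DMap.wt
        rw [thr x h0 h1 h2 h3 h4 h5]
      simp only [c1, c2]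
  have offTri : ∀ d, d ∉ B → M'.Tri3 d := by
    intro d hd
    by_cases h0 : d = s
    · subst h0
      exact ⟨by rw [p0, p1, p2], by rw [p0]; exact s_d2.symm⟩
    by_cases h1 : d = d2
    · subst h1
      exact ⟨by rw [p1, p2, p0], by rw [p1]; exact t1_d2⟩
    by_cases h2 : d = t1
    · subst h2
      exact ⟨by rw [p2, p0, p1], by rw [p2]; exact t1_s.symm⟩
    by_cases h3 : d = t
    · subst h3
      exact ⟨by rw [p3, p4, p5], by rw [p3]; exact t_t2.symm⟩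
    by_cases h4 : d = t2
    · subst h4
      exact ⟨by rw [p4, p5, p3], by rw [p4]; exact t2_d1.symm⟩
    by_cases h5 : d = d1
    · subst h5
      exact ⟨by rw [p5, p3, p4], by rw [p5]; exact hne1⟩
    have hT := hoff.2 d hd
    obtain ⟨i0, i1, i2, i3, i4, i5⟩ := outR d h0 h5 h1 h3 h2 h4
    obtain ⟨j0, j1, j2, j3, j4, j5⟩ := outR _ i0 i1 i2 i3 i4 i5
    refine ⟨?_, ?_⟩
    · rw [prest d h0 h5 h1 h3 h2 h4, prest _ i0 i1 i2 i3 i4 i5, prest _ j0 j1 j2 j3 j4 j5]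
      exact hT.1
    · rw [prest d h0 h5 h1 h3 h2 h4]
      exact hT.2
  refine ⟨M', ℓ', hfl, ⟨hpl', ?_, ⟨?_, offTri⟩, ⟨?_, ?_, ?_⟩, ?_⟩, ?_, ?_⟩
  · -- the big face
    refine ⟨hM.face.1, hM.face.2.1, ?_⟩
    rw [← hM.face.2.2]
    apply List.map_congr_left
    intro d hd
    obtain ⟨h0, h1, h2, h3, h4, h5⟩ := neB d hd
    exact prest d h0 h1 h2 h3 h4 h5
  · intro d hd
    obtain ⟨h0, h1, h2, h3, h4, h5⟩ := neB d hd
    rw [prest d h0 h1 h2 h3 h4 h5]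
    exact hoff.1 d hd
  · -- positivity
    intro d
    by_cases h0 : d = s
    · rw [h0, ls]; exact tA.px
    by_cases h1 : d = t
    · rw [h1, lt']; exact tA.px
    rw [lr d h0 h1]
    exact lpos d
  · -- symmetry
    intro d
    rw [hι']
    by_cases h0 : d = s
    · rw [h0, ← ht, ls, lt']
    by_cases h1 : d = t
    · rw [h1, hιt, ls, lt']
    have h2 : M.ι d ≠ s := by
      intro h
      apply h1
      rw [ht, ← h, M.ιι]
    have h3 : M.ι d ≠ t := by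
      intro h
      apply h0
      rw [← M.ιι d, h, hιt]
    rw [lr d h0 h1, lr _ h2 h3]
    exact lsym d
  · -- triangle inequalities
    intro d hd
    by_cases h0 : d = s
    · rw [h0, p0, p1, ls, ld2, lt1]; exact tA.hy
    by_cases h1 : d = d2
    · rw [h1, p1, p2, ls, ld2, lt1, add_comm]; exact tA.hz
    by_cases h2 : d = t1
    · rw [h2, p2, p0, ls, ld2, lt1, add_comm]; exact tA.hx
    by_cases h3 : d = t
    · rw [h3, p3, p4, lt', ld1, lt2]; exact tB.hy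
    by_cases h4 : d = t2
    · rw [h4, p4, p5, lt', ld1, lt2, add_comm]; exact tB.hz
    by_cases h5 : d = d1
    · rw [h5, p5, p3, lt', ld1, lt2, add_comm]; exact tB.hx
    obtain ⟨i0, i1, i2, i3, i4, i5⟩ := outR d h0 h5 h1 h3 h2 h4
    obtain ⟨j0, j1, j2, j3, j4, j5⟩ := outR _ i0 i1 i2 i3 i4 i5
    rw [prest d h0 h5 h1 h3 h2 h4, prest _ i0 i1 i2 i3 i4 i5, lr d h0 h3, lr _ i0 i3, lr _ j0 j3]
    exact ltri d hd
  · -- curvature
    have main : ∀ d, d ≠ s → d ≠ t → (∀ b ∈ R, ¬ M'.SameV d b) → M'.curv ℓ' B d ≤ 0 := by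
      intro d h0 h1 hd
      rw [key d h0 h1]
      apply hM.npc
      intro b hbB hb
      obtain ⟨i0, -, -, i3, -, -⟩ := neB b hbB
      exact hd b hbB ((svn d b h0 h1 i0 i3).mpr hb)
    have inv : ∀ x y, M'.SameV x y → M'.curv ℓ' B x = M'.curv ℓ' B y := by
      intro x y hxy
      unfold DMap.curv
      congr 1
      apply Finset.sum_congr rfl
      intro z _
      have : M'.SameV x z ↔ M'.SameV y z :=
        ⟨fun h => M'.sameV_trans (M'.sameV_symm hxy) h, fun h => M'.sameV_trans hxy h⟩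
      simp only [this]
    intro d hd
    by_cases h0 : d = s
    · subst h0
      rw [inv d t2 sv0]
      exact main t2 t2_s t_t2.symm (fun b hbR hb => hd b hbR (M'.sameV_trans sv0 hb))
    by_cases h1 : d = t
    · subst h1
      rw [inv d d2 sv1]
      exact main d2 s_d2.symm hne2.symm (fun b hbR hb => hd b hbR (M'.sameV_trans sv1 hb))
    exact main d h0 h1 hd
  · intro d h0 h1
    rw [← ht] at h1
    exact ⟨lr d h0 h1, key d h0 h1⟩
  · -- area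
    unfold DMap.area3
    rw [← Finset.sum_add_sum_compl ({s, d1, d2, t, t1, t2} : Finset D),
      ← Finset.sum_add_sum_compl ({s, d1, d2, t, t1, t2} : Finset D)
        (fun d => if d ∈ R then 0 else tarea (ℓ d) (ℓ (M.φ (M.φ d))) (ℓ (M.φ d)))]
    congr 1
    · rw [hnmem, hnmem]
      have hs2 : s ∉ R := hs'
      have hd12 : d1 ∉ R := bd1
      have hd22 : d2 ∉ R := bd2
      have ht02 : t ∉ R := hιs'
      have ht12 : t1 ∉ R := bt1
      have ht22 : t2 ∉ R := bt2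
      rw [if_neg hs2, if_neg hd12, if_neg hd22, if_neg ht02, if_neg ht12, if_neg ht22,
        if_neg hs2, if_neg hd12, if_neg hd22, if_neg ht02, if_neg ht12, if_neg ht22]
      have a1 : tarea (ℓ' s) (ℓ' (M'.φ (M'.φ s))) (ℓ' (M'.φ s)) = tarea L (ℓ d2) (ℓ t1) := by
        rw [p0, p1, ls, lt1, ld2]
        exact (tarea_perm hA tA).1
      have a2 : tarea (ℓ' d2) (ℓ' (M'.φ (M'.φ d2))) (ℓ' (M'.φ d2)) = tarea L (ℓ d2) (ℓ t1) := by
        rw [p1, p2, ls, lt1, ld2]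
        exact (tarea_perm hA tA).2.1
      have a3 : tarea (ℓ' t1) (ℓ' (M'.φ (M'.φ t1))) (ℓ' (M'.φ t1)) = tarea L (ℓ d2) (ℓ t1) := by
        rw [p2, p0, ls, lt1, ld2]
        exact (tarea_perm hA tA).2.2.2.2
      have a4 : tarea (ℓ' t) (ℓ' (M'.φ (M'.φ t))) (ℓ' (M'.φ t)) = tarea L (ℓ t2) (ℓ d1) := by
        rw [p3, p4, lt', lt2, ld1]
        exact (tarea_perm hA tB).1
      have a5 : tarea (ℓ' t2) (ℓ' (M'.φ (M'.φ t2))) (ℓ' (M'.φ t2)) = tarea L (ℓ t2) (ℓ d1) := by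
        rw [p4, p5, lt', lt2, ld1]
        exact (tarea_perm hA tB).2.1
      have a6 : tarea (ℓ' d1) (ℓ' (M'.φ (M'.φ d1))) (ℓ' (M'.φ d1)) = tarea L (ℓ t2) (ℓ d1) := by
        rw [p5, p3, lt', lt2, ld1]
        exact (tarea_perm hA tB).2.2.2.2
      have b1 : tarea (ℓ s) (ℓ (M.φ (M.φ s))) (ℓ (M.φ s)) = tarea (ℓ s) (ℓ d1) (ℓ d2) := by
        rw [← hd1, ← hd2]
        exact (tarea_perm hA hQH.ta).1
      have b2 : tarea (ℓ d1) (ℓ (M.φ (M.φ d1))) (ℓ (M.φ d1)) = tarea (ℓ s) (ℓ d1) (ℓ d2) := by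
        rw [← hd2, hd3]
        exact (tarea_perm hA hQH.ta).2.1
      have b3 : tarea (ℓ d2) (ℓ (M.φ (M.φ d2))) (ℓ (M.φ d2)) = tarea (ℓ s) (ℓ d1) (ℓ d2) := by
        rw [hd3, ← hd1]
        exact (tarea_perm hA hQH.ta).2.2.2.2
      have b4 : tarea (ℓ t) (ℓ (M.φ (M.φ t))) (ℓ (M.φ t)) = tarea (ℓ s) (ℓ t1) (ℓ t2) := by
        rw [← ht1, ← ht2, lt]
        exact (tarea_perm hA hQH.tb).1
      have b5 : tarea (ℓ t1) (ℓ (M.φ (M.φ t1))) (ℓ (M.φ t1)) = tarea (ℓ s) (ℓ t1) (ℓ t2) := by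
        rw [← ht2, ht3, lt]
        exact (tarea_perm hA hQH.tb).2.1
      have b6 : tarea (ℓ t2) (ℓ (M.φ (M.φ t2))) (ℓ (M.φ t2)) = tarea (ℓ s) (ℓ t1) (ℓ t2) := by
        rw [ht3, ← ht1, lt]
        exact (tarea_perm hA hQH.tb).2.2.2.2
      rw [a1, a2, a3, a4, a5, a6, b1, b2, b3, b4, b5, b6]
      linarith
    · apply Finset.sum_congr rfl
      intro x hx
      simp only [Finset.mem_compl, Finset.mem_insert, Finset.mem_singleton, not_or] at hx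
      obtain ⟨h0, h1, h2, h3, h4, h5⟩ := hx
      obtain ⟨i0, i1, i2, i3, i4, i5⟩ := outR x h0 h1 h2 h3 h4 h5
      obtain ⟨j0, -, -, j3, -, -⟩ := outR _ i0 i1 i2 i3 i4 i5
      rw [prest x h0 h1 h2 h3 h4 h5, prest _ i0 i1 i2 i3 i4 i5, lr x h0 h3, lr _ i0 i3,
        lr _ j0 j3]

end MSG.F94
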